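import Mathlib
import Pool.Agent.H34.Med

namespace Pool.Agent.Results.MP_6a83a4_lc.Closed

/-- There is a maximal eventually different family of permutations of `ℕ` that is closed in
Baire space. -/
theorem result : ∃ F : Set (ℕ → ℕ), IsClosed F ∧ (∀ f ∈ F, Function.Bijective f) ∧
    (∀ f ∈ F, ∀ g ∈ F, f ≠ g → {n | f n = g n}.Finite) ∧
    ∀ g : ℕ → ℕ, Function.Bijective g → ∃ f ∈ F, {n | f n = g n}.Infinite :=
  ⟨H34.Med.F, H34.Med.closed, fun _ h => h.1, fun _ hf _ hg h => H34.Med.ed hf hg h,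
    fun g hg => H34.Med.maximal (Equiv.ofBijective g hg)⟩

end Pool.Agent.Results.MP_6a83a4_lc.Closed
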